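import Pool.Agent.Helper94_CTD.Stmts

/-! # CTD squad, modules A1, A2, A3, A4 -/

set_option autoImplicit false

open Set

namespace Pool.Agent.CTD.H9

open Pool.Agent.CTD

/-! ## A2 -/

theorem a2 : A2Bd := by
  intro ι _ P hmono hex
  choose f hf using hex
  obtain ⟨α, hα⟩ := Ordinal.bddAbove_of_small (s := Set.range f)
  exact ⟨α, fun i => hmono i _ _ (hα ⟨i, rfl⟩) (hf i)⟩

/-! ## A1 -/

/-- bound of `x` and of the values of `g` up to `x` -/
noncomputable def GG (g : Th → Th) (x : Th) : Th := Order.succ (max x (sSup (g '' Set.Iic x)))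

theorem lt_GG (g : Th → Th) (x : Th) : x < GG g x :=
  Order.lt_succ_of_le (le_max_left _ _)

theorem g_lt_GG (g : Th → Th) {x y : Th} (h : y ≤ x) : g y < GG g x := by
  refine Order.lt_succ_of_le (le_trans ?_ (le_max_right _ _))
  exact le_csSup Ordinal.bddAbove_of_small ⟨y, h, rfl⟩

/-- the iteration -/
noncomputable def hh (g : Th → Th) (ζ0 : Th) (i : Th) : Th :=
  max (Order.succ ζ0) (⨆ j : Set.Iio i, GG g (hh g ζ0 j.1))
termination_by i
decreasing_by exact j.2

theorem hh_lt (g : Th → Th) (ζ0 : Th) {i j : Th} (h : j < i) : GG g (hh g ζ0 j) ≤ hh g ζ0 i := by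
  rw [hh.eq_def g ζ0 i]
  refine le_trans ?_ (le_max_right _ _)
  exact le_ciSup (f := fun j : Set.Iio i => GG g (hh g ζ0 j.1)) Ordinal.bddAbove_of_small ⟨j, h⟩

theorem hh_zero (g : Th → Th) (ζ0 : Th) (i : Th) : ζ0 < hh g ζ0 i := by
  rw [hh.eq_def g ζ0 i]
  exact lt_of_lt_of_le (Order.lt_succ ζ0) (le_max_left _ _)

theorem hh_strict (g : Th → Th) (ζ0 : Th) {i j : Th} (h : j < i) : hh g ζ0 j < hh g ζ0 i :=
  (lt_GG g _).trans_le (hh_lt g ζ0 h)

theorem succ_W1 {x : Th} (hx : x < o1) : Order.succ x < o1 := by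
  have h3 := Cardinal.isSuccLimit_ord (Cardinal.aleph0_le_aleph 1)
  rw [Cardinal.ord_aleph] at h3
  exact h3.succ_lt hx

theorem a1 : A1Pt := by
  intro g ζ0
  set ζ := ⨆ i : W1, hh g ζ0 i.1 with hζ
  have hbdd : BddAbove (Set.range (fun i : W1 => hh g ζ0 i.1)) := Ordinal.bddAbove_of_small
  have hle : ∀ i : W1, hh g ζ0 i.1 ≤ ζ := fun i => le_ciSup hbdd i
  have hlt : ∀ i : W1, hh g ζ0 i.1 < ζ := fun i =>
    (hh_strict g ζ0 (Order.lt_succ i.1)).trans_le (hle ⟨Order.succ i.1, succ_W1 i.2⟩)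
  have h0 : (0 : Th) < o1 := Ordinal.omega_pos 1
  have hex : ∀ x < ζ, ∃ i : W1, x < hh g ζ0 i.1 := by
    intro x hx
    have : Nonempty W1 := ⟨⟨0, h0⟩⟩
    exact exists_lt_of_lt_ciSup hx
  refine ⟨ζ, (hh_zero g ζ0 0).trans (hlt ⟨0, h0⟩), ?_, ?_⟩
  · intro x hx
    obtain ⟨i, hi⟩ := hex x hx
    have h1 := (g_lt_GG g hi.le).trans_le (hh_lt g ζ0 (Order.lt_succ i.1))
    exact h1.trans (hlt ⟨Order.succ i.1, succ_W1 i.2⟩)
  · intro C hC hCζ
    have hne : Nonempty W1 := ⟨⟨0, h0⟩⟩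
    choose! f hf using fun x (hx : x ∈ C) => hex x (hCζ x hx)
    obtain ⟨θ, hθ⟩ := bdd_W1 (f '' C) (hC.image f)
    refine ⟨hh g ζ0 θ.1, hlt θ, fun x hx => ?_⟩
    exact (hf x hx).trans (hh_strict g ζ0 (hθ _ ⟨x, hx, rfl⟩))

/-! ## A3 -/

theorem a3Nd : A3Nd := by
  have h1 : Cardinal.mk Th ≤ Cardinal.mk Nd := by
    refine Cardinal.mk_le_of_injective (f := fun δ => brr (fun _ => false) δ) ?_
    intro a b h
    exact congrArg Nd.len h
  have h2 : Cardinal.mk Nd ≤ Cardinal.mk Th := by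
    let F : Nd → Σ δ : Th, (Set.Iio δ → Bool) := fun t => ⟨t.len, fun x => t.fn x.1⟩
    have hF : Function.Injective F := by
      rintro ⟨l, f, hz⟩ ⟨l', f', hz'⟩ h
      simp only [F, Sigma.mk.injEq] at h
      obtain ⟨h3, h4⟩ := h
      subst h3
      have h4 := eq_of_heq h4
      refine Nd.ext' rfl (fun x hx => ?_)
      exact congrFun h4 ⟨x, hx⟩
    refine (Cardinal.mk_le_of_injective hF).trans ?_
    rw [Cardinal.mk_sigma]
    have h3 : ∀ δ : Th, Cardinal.mk (Set.Iio δ → Bool) ≤ Cardinal.mk Th := by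
      intro δ
      have h4 : Small.{0} (Set.Iio δ → Bool) := inferInstance
      rw [Cardinal.small_iff_lift_mk_lt_univ] at h4
      rw [Cardinal.mk_ordinal]
      simpa using h4.le
    have h5 : Cardinal.aleph0 ≤ Cardinal.mk Th := by
      rw [Cardinal.mk_ordinal]
      exact (Cardinal.aleph0_lt_univ).le
    calc Cardinal.sum (fun δ : Th => Cardinal.mk (Set.Iio δ → Bool))
        ≤ Cardinal.sum (fun _ : Th => Cardinal.mk Th) := Cardinal.sum_le_sum _ _ h3
      _ = Cardinal.mk Th * Cardinal.mk Th := by rw [Cardinal.sum_const']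
      _ = Cardinal.mk Th := Cardinal.mul_eq_self h5
  have h3 := le_antisymm h2 h1
  exact Cardinal.eq.1 h3

theorem a3 : A3Ix := by
  have hN : Nonempty (Nd ≃ Th) := a3Nd
  have hix : ∀ t, ix t = hN.some t := fun t => by
    unfold ix
    rw [dif_pos hN]
  have hxi : ∀ α, xi α = hN.some.symm α := fun t => by
    unfold xi
    rw [dif_pos hN]
  refine ⟨a3Nd, ?_, ?_, ?_⟩
  · intro t
    rw [hxi, hix, Equiv.symm_apply_apply]
  · intro α
    rw [hix, hxi, Equiv.apply_symm_apply]
  · intro ζ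
    refine small_of_injective (β := Set.Iio ζ) (f := fun t : T ζ => ⟨ix t.1, t.2⟩) ?_
    intro a b h
    have h1 : ix a.1 = ix b.1 := congrArg Subtype.val h
    rw [hix, hix] at h1
    exact Subtype.ext (hN.some.injective h1)

/-! ## A4 -/

theorem a4 : A4Sm := by
  constructor
  · intro S hS
    let F : {s : Cnd | Spt S s} → Set (Σ t : S, W1 × (Set.Iio t.1.len × Bool)) :=
      fun s => {x | s.1.1 x.1.1 x.2.1 = some (x.2.2.1.1, x.2.2.2)}
    have hF : Function.Injective F := by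
      intro s s' h
      apply Subtype.ext
      apply Subtype.ext
      have key : ∀ s s' : {s : Cnd | Spt S s}, F s = F s' →
          ∀ t ξ v, s.1.1 t ξ = some v → s'.1.1 t ξ = some v := by
        intro s s' h t ξ v hv
        have ht : t ∈ S := by
          by_contra ht
          rw [s.2 t ht ξ] at hv
          exact absurd hv (Option.some_ne_none _).symm
        have h1 : (⟨⟨t, ht⟩, ξ, ⟨v.1, s.1.2.bd t ξ v hv⟩, v.2⟩ :
            Σ t : S, W1 × (Set.Iio t.1.len × Bool)) ∈ F s := hv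
        rw [h] at h1
        exact h1
      funext t ξ
      cases h1 : s.1.1 t ξ with
      | some v => rw [key s s' h t ξ v h1]
      | none =>
        cases h2 : s'.1.1 t ξ with
        | none => rfl
        | some v =>
          have h3 := key s' s h.symm t ξ v h2
          rw [h1] at h3
          exact h3
    exact small_of_injective hF
  · intro S hS
    let F : Set (S → Bool) → Set (Nd → Bool) := fun W => {π | (fun t : S => π t.1) ∈ W}
    have hsub : {Z : Set (Nd → Bool) | Dep S Z} ⊆ Set.range F := by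
      intro Z hZ
      refine ⟨{ρ | ∃ π ∈ Z, (fun t : S => π t.1) = ρ}, ?_⟩
      ext π
      constructor
      · rintro ⟨π', h1, h2⟩
        exact (hZ π' π (fun t ht => congrFun h2 ⟨t, ht⟩)).1 h1
      · intro h1
        exact ⟨π, h1, rfl⟩
    exact small_subset hsub

end Pool.Agent.CTD.H9
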