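import Pool.Agent.Helper94_CTD.Stmts

/-! # CTD squad, modules D5, D6, D7, D8 -/

set_option autoImplicit false

open Set

namespace Pool.Agent.CTD.H9

open Pool.Agent.CTD

theorem T_mono {α β : Th} (h : α ≤ β) : T α ⊆ T β := fun _ ht => lt_of_lt_of_le ht h

/-- every condition has its support in some `T α` -/
theorem exists_Spt (h2 : A2Bd) (s : Cnd) : ∃ α, Spt (T α) s := by
  have hc := cnt_supp s
  have hsm : Small.{0} {t : Nd | ∃ ξ, s.1 t ξ ≠ none} := by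
    have := hc.to_subtype
    exact Countable.toSmall _
  obtain ⟨α, hα⟩ := h2 {t : Nd | ∃ ξ, s.1 t ξ ≠ none} (fun t α => ix t.1 < α)
    (fun t α β hab h => lt_of_lt_of_le h hab) (fun t => ⟨Order.succ (ix t.1), Order.lt_succ _⟩)
  refine ⟨α, fun t ht ξ => ?_⟩
  by_contra hne
  exact ht (hα ⟨t, ξ, hne⟩)

theorem sSpt (h3 : A3Ix) (h4 : A4Sm) (ζ : Th) : Small.{0} {s : Cnd | Spt (T ζ) s} :=
  h4.1 _ (h3.2.2.2 ζ)

open Classical in
/-- take `r` on `S` and `a` off `S` -/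
noncomputable def mix (S : Set Nd) (r a : Cnd) : Cnd :=
  ⟨fun t => if t ∈ S then r.1 t else a.1 t, by
    refine ⟨?_, ?_⟩
    · refine (r.2.cnt.union a.2.cnt).mono ?_
      rintro ⟨t, ξ⟩ hx
      simp only [Set.mem_ofPred_eq] at hx
      by_cases ht : t ∈ S
      · rw [if_pos ht] at hx
        exact Or.inl hx
      · rw [if_neg ht] at hx
        exact Or.inr hx
    · intro t ξ v hv
      by_cases ht : t ∈ S
      · simp only [if_pos ht] at hv
        exact r.2.bd t ξ v hv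
      · simp only [if_neg ht] at hv
        exact a.2.bd t ξ v hv⟩

theorem mix_in {S : Set Nd} (r a : Cnd) {t : Nd} (ht : t ∈ S) : (mix S r a).1 t = r.1 t :=
  if_pos ht

theorem mix_out {S : Set Nd} (r a : Cnd) {t : Nd} (ht : t ∉ S) : (mix S r a).1 t = a.1 t :=
  if_neg ht

/-- the empty condition -/
def emp : Cnd := ⟨fun _ _ => none, ⟨by simp, fun _ _ _ h => absurd h (Option.some_ne_none _).symm⟩⟩

/-- restriction of a condition -/
noncomputable def rst (S : Set Nd) (a : Cnd) : Cnd := mix S a emp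

theorem rst_spt (S : Set Nd) (a : Cnd) : Spt S (rst S a) := fun t ht ξ => by
  rw [rst, mix_out _ _ ht]
  rfl

theorem le_rst (S : Set Nd) (a : Cnd) : a ≤ rst S a := by
  intro t ξ v hv
  by_cases ht : t ∈ S
  · rw [rst, mix_in _ _ ht] at hv
    exact hv
  · rw [rst_spt S a t ht ξ] at hv
    exact absurd hv (Option.some_ne_none _).symm

theorem rst_le {S : Set Nd} {a s : Cnd} (h : a ≤ s) (hs : Spt S s) : rst S a ≤ s := by
  intro t ξ v hv
  by_cases ht : t ∈ S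
  · rw [rst, mix_in _ _ ht]
    exact h t ξ v hv
  · rw [hs t ht ξ] at hv
    exact absurd hv (Option.some_ne_none _).symm

theorem mix_le_left {S : Set Nd} {r a s : Cnd} (h : r ≤ s) (hs : Spt S s) : mix S r a ≤ s := by
  intro t ξ v hv
  by_cases ht : t ∈ S
  · rw [mix_in _ _ ht]
    exact h t ξ v hv
  · rw [hs t ht ξ] at hv
    exact absurd hv (Option.some_ne_none _).symm

theorem mix_le_right {S : Set Nd} {r a : Cnd} (h : r ≤ rst S a) : mix S r a ≤ a := by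
  intro t ξ v hv
  by_cases ht : t ∈ S
  · rw [mix_in _ _ ht]
    refine h t ξ v ?_
    rw [rst, mix_in _ _ ht]
    exact hv
  · rw [mix_out _ _ ht]
    exact hv

/-- a countable subset of `T ζ` is contained in an earlier `T ζ'` if `ζ` has the third property of
`A1Pt` -/
theorem cnt_below {ζ : Th}
    (hζ : ∀ C : Set Th, C.Countable → (∀ x ∈ C, x < ζ) → ∃ ζ' < ζ, ∀ x ∈ C, x < ζ')
    (D : Set Nd) (hD : D ⊆ T ζ) (hc : D.Countable) : ∃ ζ' < ζ, D ⊆ T ζ' := by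
  obtain ⟨ζ', h1, h2⟩ := hζ (ix '' D) (hc.image _) (by
    rintro x ⟨t, ht, rfl⟩
    exact hD ht)
  exact ⟨ζ', h1, fun t ht => h2 _ ⟨t, ht, rfl⟩⟩

/-! ## D5 -/

theorem d5 (h1 : A1Pt) (h2 : A2Bd) (h3 : A3Ix) (h4 : A4Sm) : D5An := by
  classical
  intro A hA
  let cmp : Cnd → Prop := fun s => ∃ a ∈ A, ∃ r : Cnd, r ≤ s ∧ r ≤ a
  have hch : ∀ s : Cnd, ∃ a : Cnd, cmp s → a ∈ A ∧ ∃ r : Cnd, r ≤ s ∧ r ≤ a := by
    intro s
    by_cases h : cmp s
    · obtain ⟨a, ha, hr⟩ := h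
      exact ⟨a, fun _ => ⟨ha, hr⟩⟩
    · exact ⟨s, fun h' => absurd h' h⟩
  choose f hf using hch
  have hg : ∀ ζ' : Th, ∃ α, ∀ s : {s : Cnd | Spt (T ζ') s}, Spt (T α) (f s.1) := by
    intro ζ'
    have := sSpt h3 h4 ζ'
    exact h2 {s : Cnd | Spt (T ζ') s} (fun s α => Spt (T α) (f s.1))
      (fun s α β hab h => h.mono (T_mono hab)) (fun s => exists_Spt h2 (f s.1))
  choose g hg using hg
  obtain ⟨ζ, _, hζ1, hζ2⟩ := h1 g 0
  refine ⟨ζ, fun a ha => ?_⟩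
  -- restriction of `a`
  have hsup : ∃ ζ' < ζ, {t | t ∈ T ζ ∧ ∃ ξ, a.1 t ξ ≠ none} ⊆ T ζ' :=
    cnt_below hζ2 _ (fun t ht => ht.1) ((cnt_supp a).mono (fun t ht => ht.2))
  obtain ⟨ζ', hlt, hsub⟩ := hsup
  have hs : Spt (T ζ') (rst (T ζ) a) := by
    intro t ht ξ
    by_cases htζ : t ∈ T ζ
    · by_contra hne
      refine ht (hsub ⟨htζ, ξ, ?_⟩)
      rwa [rst, mix_in _ _ htζ] at hne
    · exact rst_spt _ _ t htζ ξ
  have hcmp : cmp (rst (T ζ) a) := ⟨a, ha, a, le_rst _ _, le_refl _⟩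
  obtain ⟨hfa, r, hr1, hr2⟩ := hf _ hcmp
  have hfs : Spt (T ζ) (f (rst (T ζ) a)) :=
    (hg ζ' ⟨_, hs⟩).mono (T_mono (hζ1 ζ' hlt).le)
  have heq : a = f (rst (T ζ) a) :=
    hA a ha _ hfa ⟨mix (T ζ) r a, mix_le_right hr1, mix_le_left hr2 hfs⟩
  rw [heq]
  exact hfs

/-! ## D6 -/

theorem d6 (h5 : D5An) (h3 : A3Ix) (h4 : A4Sm) : D6Su := by
  classical
  intro B _ io hio ι h
  let Q : Set Cnd := {q | ∃ i, io q ≤ h i}
  obtain ⟨A, hAmax⟩ := zorn_subset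
    {A : Set Cnd | A ⊆ Q ∧ ∀ p ∈ A, ∀ q ∈ A, (∃ r : Cnd, r ≤ p ∧ r ≤ q) → p = q} (by
      intro c hc hchain
      refine ⟨⋃₀ c, ⟨?_, ?_⟩, fun s hs => subset_sUnion_of_mem hs⟩
      · exact sUnion_subset (fun s hs => (hc hs).1)
      · rintro p ⟨s, hs, hp⟩ q ⟨s', hs', hq⟩ hr
        rcases hchain.total hs hs' with hss | hss
        · exact (hc hs').2 p (hss hp) q hq hr
        · exact (hc hs).2 p hp q (hss hq) hr)
  obtain ⟨⟨hAQ, hAanti⟩, hmax⟩ := hAmax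
  obtain ⟨ζ, hζ⟩ := h5 A hAanti
  have hAsm : Small.{0} A := by
    have := sSpt h3 h4 ζ
    exact small_subset (s := {s : Cnd | Spt (T ζ) s}) (fun q hq => hζ q hq)
  by_cases hιne : Nonempty ι
  swap
  · rw [not_nonempty_iff] at hιne
    refine ⟨∅, inferInstance, ?_⟩
    rw [iSup_of_empty h]
    simp
  choose! f hf using fun q (hq : q ∈ A) => hAQ hq
  refine ⟨(fun a : A => f a.1) '' Set.univ, inferInstance, ?_⟩
  apply le_antisymm
  · exact iSup_mono (fun i => iSup_le (fun _ => le_refl _))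
  · set c := ⨆ i ∈ (fun a : A => f a.1) '' Set.univ, h i with hcdef
    apply iSup_le
    intro i
    by_contra hnle
    have hne : h i ⊓ cᶜ ≠ ⊥ := by
      intro h0
      apply hnle
      rw [← disjoint_iff, disjoint_compl_right_iff] at h0
      exact h0
    obtain ⟨q, hq⟩ := hio.exists_le _ hne
    have hqQ : q ∈ Q := ⟨i, hq.trans inf_le_left⟩
    have hcomp : ∃ a ∈ A, ∃ r : Cnd, r ≤ q ∧ r ≤ a := by
      by_contra hno
      push Not at hno
      have hins : insert q A ∈ {A : Set Cnd | A ⊆ Q ∧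
          ∀ p ∈ A, ∀ q ∈ A, (∃ r : Cnd, r ≤ p ∧ r ≤ q) → p = q} := by
        refine ⟨insert_subset hqQ hAQ, ?_⟩
        rintro p hp p' hp' ⟨r, hr1, hr2⟩
        rcases hp with rfl | hp
        · rcases hp' with rfl | hp'
          · rfl
          · exact absurd hr2 (hno p' hp' r hr1)
        · rcases hp' with rfl | hp'
          · exact absurd hr1 (hno p hp r hr2)
          · exact hAanti p hp p' hp' ⟨r, hr1, hr2⟩
      have hqA : q ∈ A := hmax hins (subset_insert q A) (mem_insert q A)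
      exact hno q hqA q (le_refl _) (le_refl _)
    obtain ⟨a, ha, r, hr1, hr2⟩ := hcomp
    have e1 : io r ≤ cᶜ := (hio.mono _ _ hr1).trans (hq.trans inf_le_right)
    have e2 : io r ≤ c := by
      refine (hio.mono _ _ hr2).trans ((hf a ha).trans ?_)
      rw [hcdef]
      exact le_iSup₂_of_le (f a) ⟨⟨a, ha⟩, mem_univ _, rfl⟩ (le_refl _)
    apply hio.ne_bot r
    rw [← le_bot_iff, ← inf_compl_eq_bot (a := c)]
    exact le_inf e2 e1

/-! ## D7 -/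

section D7

variable {B : Type 1} [CompleteBooleanAlgebra B] {io : Cnd → B}

theorem good_mono {S S' : Set Nd} {b : B} (hS : S ⊆ S') (h : Good io S b) : Good io S' b := by
  refine le_trans h (iSup_le ?_)
  rintro ⟨s, hs, hb⟩
  exact le_iSup (fun s : {s : Cnd // Spt S' s ∧ io s ≤ b} => io s.1) ⟨s, hs.mono hS, hb⟩

theorem good_iff (hio : IsDenseEmb io) (S : Set Nd) (b : B) :
    Good io S b ↔ ∀ p : Cnd, io p ⊓ b ≠ ⊥ → ∃ s : Cnd, Spt S s ∧ io s ≤ b ∧ io s ⊓ io p ≠ ⊥ := by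
  constructor
  · intro h p hp
    by_contra hno
    push Not at hno
    apply hp
    have h1 : b = b ⊓ ⨆ s : {s : Cnd // Spt S s ∧ io s ≤ b}, io s.1 := (inf_eq_left.2 h).symm
    rw [← le_bot_iff]
    calc io p ⊓ b ≤ io p ⊓ ⨆ s : {s : Cnd // Spt S s ∧ io s ≤ b}, io s.1 := inf_le_inf_left _ h
      _ = ⨆ s : {s : Cnd // Spt S s ∧ io s ≤ b}, io p ⊓ io s.1 := inf_iSup_eq _ _
      _ ≤ ⊥ := by
        refine iSup_le ?_
        rintro ⟨s, hs, hb⟩
        rw [inf_comm]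
        exact (hno s hs hb).le
  · intro h
    unfold Good
    by_contra hnle
    set c := ⨆ s : {s : Cnd // Spt S s ∧ io s ≤ b}, io s.1 with hc
    have hne : b ⊓ cᶜ ≠ ⊥ := by
      intro h0
      apply hnle
      rw [← disjoint_iff, disjoint_compl_right_iff] at h0
      exact h0
    obtain ⟨p, hp⟩ := hio.exists_le _ hne
    have hpb : io p ≤ b := hp.trans inf_le_left
    obtain ⟨s, hs1, hs2, hs3⟩ := h p (by rw [inf_eq_left.2 hpb]; exact hio.ne_bot p)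
    apply hs3
    rw [← le_bot_iff, ← inf_compl_eq_bot (a := c)]
    refine inf_le_inf ?_ (hp.trans inf_le_right)
    rw [hc]
    exact le_iSup (fun s : {s : Cnd // Spt S s ∧ io s ≤ b} => io s.1) ⟨s, hs1, hs2⟩

theorem good_inf (hio : IsDenseEmb io) {S : Set Nd} {b c : B} (hb : Good io S b)
    (hc : Good io S c) : Good io S (b ⊓ c) := by
  rw [good_iff hio] at hb hc ⊢
  intro p hp
  obtain ⟨p1, hp1, hp1'⟩ := hio.dense p (b ⊓ c) (by rwa [inf_comm])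
  obtain ⟨s, hs1, hs2, hs3⟩ := hb p1 (by
    rw [inf_eq_left.2 (hp1'.trans inf_le_left)]; exact hio.ne_bot p1)
  obtain ⟨r, hr1, hr2⟩ := hio.compat _ _ hs3
  have hrc : io r ≤ c := (hio.mono _ _ hr2).trans (hp1'.trans inf_le_right)
  obtain ⟨s', hs1', hs2', hs3'⟩ := hc r (by
    rw [inf_eq_left.2 hrc]; exact hio.ne_bot r)
  obtain ⟨r', hr1', hr2'⟩ := hio.compat _ _ hs3'
  refine ⟨rst S r', rst_spt S r', ?_, ?_⟩
  · refine le_inf ?_ ?_
    · exact (hio.mono _ _ (rst_le (hr2'.trans hr1) hs1)).trans hs2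
    · exact (hio.mono _ _ (rst_le hr1' hs1')).trans hs2'
  · intro h0
    apply hio.ne_bot r'
    rw [← le_bot_iff, ← h0]
    exact le_inf (hio.mono _ _ (le_rst S r')) (hio.mono _ _ (hr2'.trans (hr2.trans hp1)))

theorem good_sup {S : Set Nd} {b c : B} (hb : Good io S b)
    (hc : Good io S c) : Good io S (b ⊔ c) := by
  refine sup_le ?_ ?_
  · refine le_trans hb (iSup_le ?_)
    rintro ⟨s, hs, h⟩
    exact le_iSup (fun s : {s : Cnd // Spt S s ∧ io s ≤ b ⊔ c} => io s.1)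
      ⟨s, hs, h.trans le_sup_left⟩
  · refine le_trans hc (iSup_le ?_)
    rintro ⟨s, hs, h⟩
    exact le_iSup (fun s : {s : Cnd // Spt S s ∧ io s ≤ b ⊔ c} => io s.1)
      ⟨s, hs, h.trans le_sup_right⟩

theorem eq_iSup_below (hio : IsDenseEmb io) (b : B) : (⨆ q : {q : Cnd // io q ≤ b}, io q.1) = b := by
  apply le_antisymm
  · exact iSup_le (fun q => q.2)
  · by_contra hnle
    set c := ⨆ q : {q : Cnd // io q ≤ b}, io q.1 with hc
    have hne : b ⊓ cᶜ ≠ ⊥ := by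
      intro h0
      apply hnle
      rw [← disjoint_iff, disjoint_compl_right_iff] at h0
      exact h0
    obtain ⟨p, hp⟩ := hio.exists_le _ hne
    apply hio.ne_bot p
    rw [← le_bot_iff, ← inf_compl_eq_bot (a := c)]
    refine le_inf ?_ (hp.trans inf_le_right)
    rw [hc]
    exact le_iSup (fun q : {q : Cnd // io q ≤ b} => io q.1) ⟨p, hp.trans inf_le_left⟩

end D7

theorem d7 (h6 : D6Su) (h2 : A2Bd) (_h3 : A3Ix) (h4 : A4Sm) : D7Go := by
  intro B _ io hio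
  refine ⟨fun S S' b => good_mono, fun S b => good_iff hio S b, fun S b c => good_inf hio,
    fun S b c => good_sup, ?_, ?_⟩
  · intro b
    obtain ⟨J, hJ, hsup⟩ := h6 B io hio {q : Cnd // io q ≤ b} (fun q => io q.1)
    rw [eq_iSup_below hio b] at hsup
    obtain ⟨ζ, hζ⟩ := h2 J (fun q α => Spt (T α) q.1.1)
      (fun q α β hab h => h.mono (T_mono hab)) (fun q => exists_Spt h2 q.1.1)
    refine ⟨ζ, ?_⟩
    unfold Good
    calc b = ⨆ i ∈ J, io i.1 := hsup.symm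
      _ ≤ _ := by
        refine iSup₂_le (fun q hq => ?_)
        exact le_iSup (fun s : {s : Cnd // Spt (T ζ) s ∧ io s ≤ b} => io s.1)
          ⟨q.1, hζ ⟨q, hq⟩, q.2⟩
  · intro S hS
    have := h4.1 S hS
    let F : {b : B | Good io S b} → Set {s : Cnd | Spt S s} := fun b => {s | io s.1 ≤ b.1}
    refine small_of_injective (f := F) ?_
    intro b b' h
    have key : ∀ b b' : {b : B | Good io S b}, F b = F b' → b.1 ≤ b'.1 := by
      intro b b' h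
      refine le_trans b.2 (iSup_le ?_)
      rintro ⟨s, hs, hb⟩
      have : (⟨s, hs⟩ : {s : Cnd | Spt S s}) ∈ F b := hb
      rw [h] at this
      exact this
    exact Subtype.ext (le_antisymm (key b b' h) (key b' b h.symm))

/-! ## D8 -/

theorem Dep.mono {D D' : Set Nd} {Z : Set (Nd → Bool)} (h : Dep D Z) (hD : D ⊆ D') : Dep D' Z :=
  fun π π' hπ => h π π' (fun t ht => hπ t (hD ht))

theorem d8 (h1 : A1Pt) (h2 : A2Bd) (h3 : A3Ix) (h4 : A4Sm) (h6 : D6Su) (h7 : D7Go) : D8Cp := by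
  classical
  intro B _ io hio μ
  obtain ⟨g1, _, _, _, g5, _⟩ := h7 B io hio
  -- the function of two variables in `refl2`
  let Ψ : Set (Nd → Bool) → Th → Th × Nd → B := fun Z β1 x =>
    μ x.1 (cv io Z) ⊓ symmDiff (μ x.1 (cv io {π | π x.2 = true})) (μ β1 (cv io {π | π x.2 = true}))
  -- (a)
  have ha : ∀ ζ' : Th, ∃ α, ∀ x : (Σ t : T ζ', Set.Iic t.1.len), ix (x.1.1.res x.2.1) < α := by
    intro ζ'
    have := h3.2.2.2 ζ'
    exact h2 (Σ t : T ζ', Set.Iic t.1.len) (fun x α => ix (x.1.1.res x.2.1) < α)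
      (fun x α β hab h => lt_of_lt_of_le h hab) (fun x => ⟨_, Order.lt_succ _⟩)
  choose ga hga using ha
  have hsZ : ∀ ζ' : Th, Small.{0} {Z : Set (Nd → Bool) | Dep (T ζ') Z} :=
    fun ζ' => h4.2 _ (h3.2.2.2 ζ')
  -- (b)
  have hb : ∀ ζ' : Th, ∃ α, ∀ x : Set.Iio ζ' × {Z : Set (Nd → Bool) | Dep (T ζ') Z},
      Good io (T α) (μ x.1.1 (cv io x.2.1)) := by
    intro ζ'
    have := hsZ ζ'
    exact h2 (Set.Iio ζ' × {Z : Set (Nd → Bool) | Dep (T ζ') Z})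
      (fun x α => Good io (T α) (μ x.1.1 (cv io x.2.1)))
      (fun x α β hab h => g1 _ _ _ (T_mono hab) h) (fun x => g5 _)
  choose gb hgb using hb
  -- (c)
  have hc : ∀ ζ' : Th, ∃ α, ∀ Z : {Z : Set (Nd → Bool) | Dep (T ζ') Z},
      (⨆ β, μ β (cv io Z.1)) ≤ ⨆ β, ⨆ _ : β < α, μ β (cv io Z.1) := by
    intro ζ'
    have := hsZ ζ'
    refine h2 {Z : Set (Nd → Bool) | Dep (T ζ') Z} (fun Z α =>
      (⨆ β, μ β (cv io Z.1)) ≤ ⨆ β, ⨆ _ : β < α, μ β (cv io Z.1)) ?_ ?_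
    · intro Z α β hab h
      exact h.trans (iSup_mono (fun γ => iSup_le (fun hγ =>
        le_iSup_of_le (lt_of_lt_of_le hγ hab) (le_refl _))))
    · intro Z
      obtain ⟨J, hJ, hsup⟩ := h6 B io hio Th (fun β => μ β (cv io Z.1))
      obtain ⟨α, hα⟩ := Ordinal.bddAbove_of_small (s := J)
      refine ⟨Order.succ α, ?_⟩
      rw [← hsup]
      exact iSup_mono (fun β => iSup_le (fun hβ =>
        le_iSup_of_le (Order.lt_succ_of_le (hα hβ)) (le_refl _)))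
  choose gc hgc using hc
  -- (d)
  have hd : ∀ ζ' : Th, ∃ α, ∀ x : Set.Iio ζ' × {Z : Set (Nd → Bool) | Dep (T ζ') Z},
      (⨆ β, ⨆ t : Nd, Ψ x.2.1 x.1.1 (β, t)) ≤
        ⨆ β, ⨆ _ : β < α, ⨆ t : Nd, ⨆ _ : t ∈ T α, Ψ x.2.1 x.1.1 (β, t) := by
    intro ζ'
    have := hsZ ζ'
    refine h2 (Set.Iio ζ' × {Z : Set (Nd → Bool) | Dep (T ζ') Z}) (fun x α =>
      (⨆ β, ⨆ t : Nd, Ψ x.2.1 x.1.1 (β, t)) ≤
        ⨆ β, ⨆ _ : β < α, ⨆ t : Nd, ⨆ _ : t ∈ T α, Ψ x.2.1 x.1.1 (β, t)) ?_ ?_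
    · intro x α β hab h
      refine h.trans (iSup_mono (fun γ => iSup_le (fun hγ => ?_)))
      refine le_iSup_of_le (lt_of_lt_of_le hγ hab) (iSup_mono (fun t => iSup_le (fun ht => ?_)))
      exact le_iSup_of_le (T_mono hab ht) (le_refl _)
    · intro x
      obtain ⟨J, hJ, hsup⟩ := h6 B io hio (Th × Nd) (Ψ x.2.1 x.1.1)
      obtain ⟨α, hα⟩ := h2 J (fun y α => y.1.1 < α ∧ y.1.2 ∈ T α)
        (fun y α β hab h => ⟨lt_of_lt_of_le h.1 hab, T_mono hab h.2⟩)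
        (fun y => ⟨Order.succ (max y.1.1 (ix y.1.2)), Order.lt_succ_of_le (le_max_left _ _),
          show ix y.1.2 < _ from Order.lt_succ_of_le (le_max_right _ _)⟩)
      refine ⟨α, ?_⟩
      have e1 : (⨆ β, ⨆ t : Nd, Ψ x.2.1 x.1.1 (β, t)) = ⨆ y : Th × Nd, Ψ x.2.1 x.1.1 y := by
        rw [iSup_prod]
      rw [e1, ← hsup]
      refine iSup₂_le ?_
      rintro ⟨β, t⟩ hy
      have h5 := hα ⟨(β, t), hy⟩
      exact le_iSup_of_le β (le_iSup_of_le h5.1 (le_iSup_of_le t (le_iSup_of_le h5.2 (le_refl _))))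
  choose gd hgd using hd
  -- the bound
  let g : Th → Th := fun x => max (max (max (ga x) (gb x)) (max (gc x) (gd x))) (Order.succ x)
  obtain ⟨ζ, hζ0, hζ1, hζ2⟩ := h1 g 0
  have hgle : ∀ x < ζ, ga x < ζ ∧ gb x < ζ ∧ gc x < ζ ∧ gd x < ζ ∧ Order.succ x < ζ := by
    intro x hx
    have h5 := hζ1 x hx
    simp only [g, max_lt_iff] at h5
    exact ⟨h5.1.1.1, h5.1.1.2, h5.1.2.1, h5.1.2.2, h5.2⟩
  have hDep : ∀ Z, Cd (T ζ) Z → ∃ ζ' < ζ, Dep (T ζ') Z := by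
    rintro Z ⟨D, hD, hcnt, hdep⟩
    obtain ⟨ζ', h5, h6⟩ := cnt_below hζ2 D hD hcnt
    exact ⟨ζ', h5, Dep.mono hdep h6⟩
  refine ⟨ζ, ⟨?_, ?_, ?_, ?_⟩⟩
  · intro t ht γ hγ
    have h5 : ix t < ζ := ht
    have h6 := (hgle _ h5).2.2.2.2
    have h7 : t ∈ T (Order.succ (ix t)) := Order.lt_succ (ix t)
    have h8 := hga (Order.succ (ix t)) ⟨⟨t, h7⟩, ⟨γ, hγ⟩⟩
    exact lt_trans h8 (hgle _ h6).1
  · intro β hβ Z hZ
    obtain ⟨ζ', hζ', hdep⟩ := hDep Z hZ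
    have hm : max ζ' (Order.succ β) < ζ := max_lt hζ' (hgle _ hβ).2.2.2.2
    have h5 := hgb (max ζ' (Order.succ β)) (⟨β, lt_of_lt_of_le (Order.lt_succ β) (le_max_right _ _)⟩,
      ⟨Z, Dep.mono hdep (T_mono (le_max_left _ _))⟩)
    exact g1 _ _ _ (T_mono (hgle _ hm).2.1.le) h5
  · intro Z hZ
    obtain ⟨ζ', hζ', hdep⟩ := hDep Z hZ
    refine (hgc ζ' ⟨Z, hdep⟩).trans (iSup_mono (fun γ => iSup_le (fun hγ => ?_)))
    exact le_iSup_of_le (hγ.trans (hgle _ hζ').2.2.1) (le_refl _)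
  · intro Z hZ β1 hβ1
    obtain ⟨ζ', hζ', hdep⟩ := hDep Z hZ
    have hm : max ζ' (Order.succ β1) < ζ := max_lt hζ' (hgle _ hβ1).2.2.2.2
    have h5 := hgd (max ζ' (Order.succ β1))
      (⟨β1, lt_of_lt_of_le (Order.lt_succ β1) (le_max_right _ _)⟩,
      ⟨Z, Dep.mono hdep (T_mono (le_max_left _ _))⟩)
    have h6 := (hgle _ hm).2.2.2.1
    refine h5.trans (iSup_mono (fun γ => iSup_le (fun hγ => ?_)))
    refine le_iSup_of_le (hγ.trans h6) (iSup_mono (fun t => iSup_le (fun ht => ?_)))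
    exact le_iSup_of_le (T_mono h6.le ht) (le_refl _)

end Pool.Agent.CTD.H9
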